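import Pool.Agent.Lib.BA.ALL
import Pool.Agent.Lib.BA.Odd

/-! Clustering of zero-temperature Glauber dynamics on the square lattice, for every initial density. -/

open MeasureTheory Filter Topology Pool.Agent.BA

theorem Pool.Agent.Results.MP_ba549f_pr.Clustering.result (ρ : ℝ) (hρ : ρ ∈ Set.Icc (0 : ℝ) 1) :
    ∃ σ : Noise → ℝ → Cfg,
      (∀ᵐ ω ∂law ρ, ∀ s : ℝ → Cfg, IsGlauber ω s ↔ s = σ ω) ∧
      (∀ t, Measurable fun ω => σ ω t) ∧
      ∀ Λ : Finset V,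
        Tendsto (fun t => law ρ {ω | ∀ x ∈ Λ, ∀ y ∈ Λ, σ ω t x = σ ω t y}) atTop (𝓝 1) ∧
        (1 / 2 ≤ ρ →
          ENNReal.ofReal ρ ≤ liminf (fun t => law ρ {ω | ∀ x ∈ Λ, σ ω t x = true}) atTop) ∧
        (ρ ≤ 1 / 2 →
          ENNReal.ofReal (1 - ρ) ≤ liminf (fun t => law ρ {ω | ∀ x ∈ Λ, σ ω t x = false}) atTop) := by
  have key : ∀ Λ : Finset V,
      Tendsto (fun t => law ρ {ω | ∀ x ∈ Λ, ∀ y ∈ Λ, sig ω t x = sig ω t y}) atTop (𝓝 1) :=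
    cluster_of_energy hρ (All.a_core _ (g_flow hρ) (g_init hρ)).2
      (All.a_core _ (g_flow hρ) (g_init hρ)).1
  exact ⟨sig, g_unique hρ, measurable_sig, fun Λ => ⟨key Λ,
    fun h => le_liminf_const hρ Λ true hρ.2 (key Λ) fun z t ht => (spin_bias hρ z ht).1 h,
    fun h => le_liminf_const hρ Λ false (by linarith [hρ.1]) (key Λ)
      fun z t ht => (spin_bias hρ z ht).2 h⟩⟩
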